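import Pool.Agent.H68.L.R_pool_sql_team_seeded_3997aac3.Q44.BM.Stm
import Pool.Agent.H68.L.R_seed8.Y391.CQ.CNT

/-!
Sets with many primes, sets near the boundary, sets with two primes in a block (after
`Pool.Agent.Y391.CQ.CNT`).
-/

set_option autoImplicit false

namespace Q44.BM

open Finset
open Pool.Agent.Y703.CX (sm la jj XX)
open Pool.Agent.Y391.CQ (prod_pos' prod_inj harm log_nonneg' exp_jj_le lt_exp_jj XX_le XX_le'
  sm_mul_la)
open scoped Classical

variable {Φ : Fam}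

theorem SS_prop {X : ℕ} {S : Finset ℕ} (hS : S ∈ SS Φ X) :
    (∀ p ∈ S, p.Prime) ∧ ∏ p ∈ S, p ≤ X := by
  unfold SS at hS
  rw [mem_filter] at hS
  exact ⟨fun p hp => (hS.2.1 p hp).prime, hS.2.2⟩

theorem card_le_of_prod {X : ℕ} (F : Finset (Finset ℕ)) (hF : F ⊆ SS Φ X) (G : Finset ℕ)
    (h : ∀ S ∈ F, ∏ p ∈ S, p ∈ G) : F.card ≤ G.card := by
  apply card_le_card_of_injOn (fun S => ∏ p ∈ S, p)
  · intro S hS
    exact h S hS
  · intro S hS T hT hST
    exact prod_inj (SS_prop (hF hS)).1 (SS_prop (hF hT)).1 hST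

theorem sum_two_pow (Φ : Fam) (X : ℕ) : ∑ S ∈ SS Φ X, (2 : ℝ) ^ S.card ≤ X * (1 + Real.log X) := by
  have h1 : ∀ S ∈ SS Φ X, 2 ^ S.card ≤ (∏ p ∈ S, p).divisors.card := by
    intro S hS
    obtain ⟨hp, -⟩ := SS_prop hS
    rw [← card_powerset]
    apply card_le_card_of_injOn (fun T => ∏ p ∈ T, p)
    · intro T hT
      rw [mem_coe, mem_powerset] at hT
      rw [mem_coe, Nat.mem_divisors]
      exact ⟨prod_dvd_prod_of_subset _ _ _ hT, (prod_pos' hp).ne'⟩
    · intro T hT T' hT' h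
      rw [mem_coe, mem_powerset] at hT hT'
      exact prod_inj (fun p h => hp p (hT h)) (fun p h => hp p (hT' h)) h
  have h2 : ∑ S ∈ SS Φ X, 2 ^ S.card ≤ ∑ n ∈ Ioc 0 X, n.divisors.card := by
    refine (sum_le_sum h1).trans ?_
    have e : ∑ S ∈ SS Φ X, (∏ p ∈ S, p).divisors.card =
        ∑ n ∈ (SS Φ X).image (fun S => ∏ p ∈ S, p), n.divisors.card := by
      rw [sum_image]
      intro S hS T hT h
      exact prod_inj (SS_prop hS).1 (SS_prop hT).1 h
    rw [e]
    refine sum_le_sum_of_subset ?_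
    intro n hn
    rw [mem_image] at hn
    obtain ⟨S, hS, rfl⟩ := hn
    exact mem_Ioc.2 ⟨prod_pos' (SS_prop hS).1, (SS_prop hS).2⟩
  have h3 : ∑ n ∈ Ioc 0 X, n.divisors.card = ∑ d ∈ Ioc 0 X, X / d := by
    have e1 : ∀ n ∈ Ioc 0 X, n.divisors.card = ∑ d ∈ Ioc 0 X, if d ∣ n then 1 else 0 := by
      intro n hn
      rw [mem_Ioc] at hn
      rw [← card_filter]
      congr 1
      ext d
      rw [Nat.mem_divisors, mem_filter, mem_Ioc]
      constructor
      · rintro ⟨h, -⟩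
        exact ⟨⟨Nat.pos_of_dvd_of_pos h hn.1, (Nat.le_of_dvd hn.1 h).trans hn.2⟩, h⟩
      · rintro ⟨-, h⟩
        exact ⟨h, by omega⟩
    rw [sum_congr rfl e1, sum_comm]
    refine sum_congr rfl fun d _ => ?_
    rw [← card_filter, Nat.Ioc_filter_dvd_card_eq_div]
  have h4 : ∑ S ∈ SS Φ X, (2 : ℝ) ^ S.card ≤ ∑ d ∈ Ioc 0 X, ((X / d : ℕ) : ℝ) := by
    rw [h3] at h2
    exact_mod_cast h2
  refine h4.trans ?_
  have h5 : ∀ d ∈ Ioc 0 X, ((X / d : ℕ) : ℝ) ≤ X * (1 / d) := by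
    intro d _
    refine Nat.cast_div_le.trans (le_of_eq ?_)
    rw [mul_one_div]
  refine (sum_le_sum h5).trans ?_
  rw [← mul_sum]
  exact mul_le_mul_of_nonneg_left (harm X) (Nat.cast_nonneg _)

theorem cut_count {X z H k : ℕ} (hH : 1 ≤ H) : (((SS Φ X).filter fun S => S.card ≤ k ∧
    X < (∏ p ∈ sm z S, p) * ∏ p ∈ la z S, XX H (jj H p)).card : ℝ) ≤ X * k / H + 1 := by
  have hH' : (0 : ℝ) < H := by exact_mod_cast hH
  have hX' : (0 : ℝ) ≤ X := Nat.cast_nonneg _
  set t : ℝ := X * k / H with ht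
  have ht0 : 0 ≤ t := by positivity
  have h1 : ((SS Φ X).filter fun S => S.card ≤ k ∧
      X < (∏ p ∈ sm z S, p) * ∏ p ∈ la z S, XX H (jj H p)).card ≤
      ((range ⌈t⌉₊).image fun m => X - m).card := by
    apply card_le_of_prod (X := X) _ (filter_subset _ _)
    intro S hS
    rw [mem_filter] at hS
    obtain ⟨hSS, hSK, hlt⟩ := hS
    obtain ⟨hSO, hSX⟩ := SS_prop hSS
    have h2 : (X : ℝ) < (∏ p ∈ sm z S, p : ℕ) * ∏ p ∈ la z S, (XX H (jj H p) : ℝ) := by
      exact_mod_cast hlt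
    have h3 : ∏ p ∈ la z S, (XX H (jj H p) : ℝ) ≤
        ∏ p ∈ la z S, ((p : ℝ) * Real.exp (1 / H)) := by
      apply prod_le_prod (fun p _ => Nat.cast_nonneg _)
      intro p hp
      exact XX_le' hH (hSO p (mem_filter.1 hp).1)
    rw [prod_mul_distrib, prod_const, ← Real.exp_nat_mul] at h3
    have h5 : Real.exp ((la z S).card * (1 / H)) ≤ Real.exp (k / H) := by
      apply Real.exp_le_exp.2
      rw [mul_one_div]
      apply div_le_div_of_nonneg_right _ hH'.le
      exact_mod_cast (card_filter_le _ _).trans hSK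
    have h6 : (X : ℝ) < (∏ p ∈ S, p : ℕ) * Real.exp (k / H) := by
      calc (X : ℝ) < (∏ p ∈ sm z S, p : ℕ) * ∏ p ∈ la z S, (XX H (jj H p) : ℝ) := h2
        _ ≤ (∏ p ∈ sm z S, p : ℕ) * ((∏ p ∈ la z S, (p : ℝ)) * Real.exp (k / H)) := by
            refine mul_le_mul_of_nonneg_left (h3.trans ?_) (Nat.cast_nonneg _)
            exact mul_le_mul_of_nonneg_left h5 (prod_nonneg fun _ _ => Nat.cast_nonneg _)
        _ = (∏ p ∈ S, p : ℕ) * Real.exp (k / H) := by
            rw [← sm_mul_la z S]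
            push_cast
            ring
    have h7 : (X : ℝ) * Real.exp (-(k / H)) < (∏ p ∈ S, p : ℕ) := by
      rw [Real.exp_neg, ← div_eq_mul_inv, div_lt_iff₀ (Real.exp_pos _)]
      exact h6
    have h8 : -((k : ℝ) / H) + 1 ≤ Real.exp (-(k / H)) := Real.add_one_le_exp _
    have h9 : (X : ℝ) - t < (∏ p ∈ S, p : ℕ) := by
      refine lt_of_le_of_lt ?_ h7
      have h10 := mul_le_mul_of_nonneg_left h8 hX'
      rw [ht]
      refine le_trans (le_of_eq ?_) h10
      ring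
    rw [mem_image]
    refine ⟨X - ∏ p ∈ S, p, ?_, by omega⟩
    rw [mem_range, Nat.lt_ceil, Nat.cast_sub hSX]
    linarith
  have h2 : ((((SS Φ X).filter fun S => S.card ≤ k ∧
      X < (∏ p ∈ sm z S, p) * ∏ p ∈ la z S, XX H (jj H p)).card : ℕ) : ℝ) ≤ ⌈t⌉₊ := by
    have := h1.trans card_image_le
    rw [card_range] at this
    exact_mod_cast this
  exact h2.trans (Nat.ceil_lt_add_one ht0).le

theorem coll_count {X z H : ℕ} (hH : 1 ≤ H) : (((SS Φ X).filter fun S =>
    ¬ Set.InjOn (jj H) (la z S : Set ℕ)).card : ℝ) ≤ 4 * X * (1 + Real.log X) / H := by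
  have hH1 : (1 : ℝ) ≤ H := by exact_mod_cast hH
  have hH' : (0 : ℝ) < H := by linarith
  have hX' : (0 : ℝ) ≤ X := Nat.cast_nonneg _
  -- the pairs of primes in a block
  have h0 : ∀ p q : ℕ, p.Prime → q.Prime → p < q → jj H p = jj H q →
      q ∈ Ioc p (p + 2 * p / H) := by
    intro p q hp hq hpq hj
    have h1 := exp_jj_le hH hp
    have h2 := lt_exp_jj hH hq
    rw [← hj, add_div, Real.exp_add] at h2
    have h3 : (q : ℝ) < p * Real.exp (1 / H) :=
      h2.trans_le (mul_le_mul_of_nonneg_right h1 (Real.exp_pos _).le)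
    have h5 : Real.exp (1 / H) ≤ 1 + 2 / H := by
      have h6 := Real.abs_exp_sub_one_le (x := 1 / H) (by
        rw [abs_of_pos (by positivity), div_le_one (by linarith)]
        exact hH1)
      rw [abs_of_pos (show (0 : ℝ) < 1 / H by positivity)] at h6
      have h7 := (le_abs_self _).trans h6
      have h8 : 2 * (1 / (H : ℝ)) = 2 / H := by ring
      linarith
    have hp0 : (0 : ℝ) ≤ p := Nat.cast_nonneg _
    have h6 : (q : ℝ) ≤ p + 2 * p / H := by
      have := mul_le_mul_of_nonneg_left h5 hp0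
      have e : (p : ℝ) * (1 + 2 / H) = p + 2 * p / H := by ring
      linarith
    rw [mem_Ioc]
    refine ⟨hpq, ?_⟩
    have h7 : q - p ≤ 2 * p / H := by
      rw [Nat.le_div_iff_mul_le (by omega)]
      have h8 : ((q : ℝ) - p) * H ≤ 2 * p := by
        rw [← le_div_iff₀ hH']
        linarith
      have h9 : (((q - p) * H : ℕ) : ℝ) ≤ ((2 * p : ℕ) : ℝ) := by
        push_cast [Nat.cast_sub hpq.le]
        exact h8
      exact_mod_cast h9
    omega
  have h1 : (SS Φ X).filter (fun S => ¬ Set.InjOn (jj H) (la z S : Set ℕ)) ⊆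
      (Ioc 0 X).biUnion fun p => (Ioc p (p + 2 * p / H)).biUnion fun q =>
        (SS Φ X).filter fun S => p * q ∣ ∏ l ∈ S, l := by
    intro S hS
    rw [mem_filter] at hS
    obtain ⟨hS1, hS2⟩ := hS
    obtain ⟨hP, hX⟩ := SS_prop hS1
    unfold Set.InjOn at hS2
    push Not at hS2
    obtain ⟨p, hp, q, hq, hpq, hne⟩ := hS2
    rw [mem_coe] at hp hq
    unfold la at hp hq
    rw [mem_filter] at hp hq
    have key : ∀ p q : ℕ, p ∈ S → q ∈ S → p < q → jj H p = jj H q →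
        S ∈ (Ioc 0 X).biUnion fun p => (Ioc p (p + 2 * p / H)).biUnion fun q =>
        (SS Φ X).filter fun S => p * q ∣ ∏ l ∈ S, l := by
      intro p q hp hq hlt hj
      rw [mem_biUnion]
      have hpX : p ≤ X := (Nat.le_of_dvd (prod_pos' hP) (dvd_prod_of_mem (fun l => l) hp)).trans hX
      refine ⟨p, mem_Ioc.2 ⟨(hP p hp).pos, hpX⟩, ?_⟩
      rw [mem_biUnion]
      refine ⟨q, h0 p q (hP p hp) (hP q hq) hlt hj, ?_⟩
      rw [mem_filter]
      refine ⟨hS1, ?_⟩
      rw [← mul_prod_erase S (fun l => l) hp]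
      exact mul_dvd_mul_left p (dvd_prod_of_mem (fun l => l)
        (mem_erase.2 ⟨by omega, hq⟩))
    rcases lt_or_gt_of_ne hne with h | h
    · exact key p q hp.1 hq.1 h hpq
    · exact key q p hq.1 hp.1 h hpq.symm
  have h2 : ((((SS Φ X).filter fun S => ¬ Set.InjOn (jj H) (la z S : Set ℕ)).card : ℕ) : ℝ) ≤
      ∑ p ∈ Ioc 0 X, ∑ q ∈ Ioc p (p + 2 * p / H),
          ((((SS Φ X).filter fun S => p * q ∣ ∏ l ∈ S, l).card : ℕ) : ℝ) := by
    have h3 := (card_le_card h1).trans (card_biUnion_le.trans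
      (sum_le_sum fun p _ => card_biUnion_le))
    exact_mod_cast h3
  refine h2.trans ?_
  have hmul : ∀ m : ℕ, 0 < m → ((((SS Φ X).filter fun S => m ∣ ∏ l ∈ S, l).card : ℕ) : ℝ) ≤
      X / m := by
    intro m _
    have h3 : ((SS Φ X).filter fun S => m ∣ ∏ l ∈ S, l).card ≤
        ((Ioc 0 X).filter fun n => m ∣ n).card := by
      apply card_le_of_prod (X := X) _ (filter_subset _ _)
      intro S hS
      rw [mem_filter] at hS
      obtain ⟨hP, hX⟩ := SS_prop hS.1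
      exact mem_filter.2 ⟨mem_Ioc.2 ⟨prod_pos' hP, hX⟩, hS.2⟩
    rw [Nat.Ioc_filter_dvd_card_eq_div] at h3
    have h4 : ((((SS Φ X).filter fun S => m ∣ ∏ l ∈ S, l).card : ℕ) : ℝ) ≤ ((X / m : ℕ) : ℝ) := by
      exact_mod_cast h3
    exact h4.trans Nat.cast_div_le
  have h3 : ∀ p ∈ Ioc 0 X, ∑ q ∈ Ioc p (p + 2 * p / H),
      ((((SS Φ X).filter fun S => p * q ∣ ∏ l ∈ S, l).card : ℕ) : ℝ) ≤
        2 * X / H * (1 / p) := by
    intro p hp
    rw [mem_Ioc] at hp
    have hp0 : (0 : ℝ) < p := by exact_mod_cast hp.1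
    have h4 : ∀ q ∈ Ioc p (p + 2 * p / H),
        ((((SS Φ X).filter fun S => p * q ∣ ∏ l ∈ S, l).card : ℕ) : ℝ) ≤ X / (p * p) := by
      intro q hq
      rw [mem_Ioc] at hq
      refine (hmul (p * q) (Nat.mul_pos hp.1 (by omega))).trans ?_
      push_cast
      have hq0 : (p : ℝ) ≤ q := by exact_mod_cast hq.1.le
      gcongr
    refine (sum_le_sum h4).trans ?_
    rw [sum_const, nsmul_eq_mul, Nat.card_Ioc, Nat.add_sub_cancel_left]
    have h5 : ((2 * p / H : ℕ) : ℝ) ≤ 2 * p / H := by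
      refine Nat.cast_div_le.trans (le_of_eq ?_)
      push_cast
      ring
    calc ((2 * p / H : ℕ) : ℝ) * (X / (p * p)) ≤ 2 * p / H * (X / (p * p)) :=
          mul_le_mul_of_nonneg_right h5 (by positivity)
      _ = _ := by field_simp
  refine (sum_le_sum h3).trans ?_
  rw [← mul_sum]
  have h4 := mul_le_mul_of_nonneg_left (harm X) (show (0 : ℝ) ≤ 2 * X / H by positivity)
  refine h4.trans ?_
  have h5 : (0 : ℝ) ≤ 1 + Real.log X := by
    refine le_trans ?_ (harm X)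
    exact sum_nonneg fun _ _ => by positivity
  have h6 : 2 * (X : ℝ) / H * (1 + Real.log X) = 2 * (X * (1 + Real.log X) / H) := by ring
  have h7 : 4 * (X : ℝ) * (1 + Real.log X) / H = 4 * (X * (1 + Real.log X) / H) := by ring
  have h8 : 0 ≤ X * (1 + Real.log X) / H := by positivity
  rw [h6, h7]
  linarith

/-- Sets with many primes. -/
theorem many (Φ : Fam) (X k : ℕ) :
    (((SS Φ X).filter fun S => k < S.card).card : ℝ) * 2 ^ k ≤ X * (1 + Real.log X) := by
  refine le_trans ?_ (sum_two_pow Φ X)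
  rw [← nsmul_eq_mul, ← sum_const]
  refine (sum_le_sum (g := fun S => (2 : ℝ) ^ S.card) fun S hS => ?_).trans
    (sum_le_sum_of_subset_of_nonneg (filter_subset _ _) fun _ _ _ => by positivity)
  rw [mem_filter] at hS
  exact pow_le_pow_right₀ (by norm_num) hS.2.le

end Q44.BM
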