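import Pool.Agent.H68.L.R_pool_sql_team_seeded_3997aac3.Q44.BM.Stm
import Pool.Agent.H68.L.R_seed8.Y710.CQ.BIL

/-!
# The reciprocity law for the symbols and the bilinear sums over all odd primes
-/

set_option autoImplicit false

open scoped Classical

namespace Q44.BM

open Finset
open Pool.Agent.Y703.CQ (nr sg)
open Pool.Agent.Y710.CQ (xi sg_xi)

/-- the class of `-1` -/
def vm (p : ℕ) : ZMod 2 := if p % 4 = 1 then 0 else 1

theorem sg_inj {a b : ZMod 2} (h : sg a = sg b) : a = b := by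
  have key : ∀ a : ZMod 2, a = 0 ∨ a = 1 := by decide
  unfold sg at h
  rcases key a with rfl | rfl <;> rcases key b with rfl | rfl
  · rfl
  · exfalso
    rw [if_pos rfl, if_neg (by decide)] at h
    norm_num at h
  · exfalso
    rw [if_pos rfl, if_neg (by decide)] at h
    norm_num at h
  · rfl

theorem sg_add (a b : ZMod 2) : sg (a + b) = sg a * sg b := by
  have key : ∀ a : ZMod 2, a = 0 ∨ a = 1 := by decide
  unfold sg
  rcases key a with rfl | rfl <;> rcases key b with rfl | rfl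
  · simp
  · simp
  · simp
  · rw [if_pos (by decide), if_neg (by decide)]
    norm_num

/-- **the reciprocity law** -/
theorem nr_rec {p q : ℕ} (hp : p.Prime) (hp2 : p ≠ 2) (hq : q.Prime) (hq2 : q ≠ 2) (hne : p ≠ q) :
    nr p q = nr q p + vm p * vm q := by
  apply sg_inj
  rw [sg_add, sg_xi hp hq hne, sg_xi hq hp hne.symm]
  have ho := hp.odd_of_ne_two hp2
  have ho' := hq.odd_of_ne_two hq2
  unfold xi vm
  by_cases h : p % 4 = 1
  · rw [if_pos h, zero_mul, jacobiSym.quadratic_reciprocity_one_mod_four' ho' h]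
    unfold sg
    rw [if_pos rfl, mul_one]
  · by_cases h' : q % 4 = 1
    · rw [if_pos h', mul_zero, jacobiSym.quadratic_reciprocity_one_mod_four h' ho]
      unfold sg
      rw [if_pos rfl, mul_one]
    · have e1 : p % 4 = 3 := by
        rcases ho with ⟨k, hk⟩
        omega
      have e2 : q % 4 = 3 := by
        rcases ho' with ⟨k, hk⟩
        omega
      rw [if_neg h, if_neg h', jacobiSym.quadratic_reciprocity_three_mod_four e2 e1]
      unfold sg
      rw [mul_one, if_neg (by decide)]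
      push_cast
      ring

/-- the sign -/
noncomputable def ch (p : ℕ) : ℂ := sg (vm p)

theorem ch_norm (p : ℕ) : ‖ch p‖ ≤ 1 := by
  unfold ch sg
  split_ifs <;> simp

theorem sg_vm (p q : ℕ) : sg (vm p * vm q) = (1 + ch p + ch q - ch p * ch q) / 2 := by
  unfold ch sg vm
  by_cases h : p % 4 = 1
  · by_cases h' : q % 4 = 1
    · simp only [if_pos h, if_pos h', mul_zero, if_true]
      norm_num
    · simp only [if_pos h, if_neg h', zero_mul, if_true]
      rw [if_neg (by decide)]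
      norm_num
  · by_cases h' : q % 4 = 1
    · simp only [if_neg h, if_pos h', mul_zero, if_true]
      rw [if_neg (by decide)]
      norm_num
    · simp only [if_neg h, if_neg h', mul_one]
      rw [if_neg (by decide)]
      norm_num

theorem four_max {a b c d K z : ℝ} (ha0 : 0 ≤ a) (hb0 : 0 ≤ b) (hc0 : 0 ≤ c) (hd0 : 0 ≤ d)
    (ha : a ^ 12 * z ≤ K) (hb : b ^ 12 * z ≤ K) (hc : c ^ 12 * z ≤ K)
    (hd : d ^ 12 * z ≤ K) (hz : 0 ≤ z) : ((a + b + c + d) / 2) ^ 12 * z ≤ 2 ^ 12 * K := by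
  obtain ⟨N, hN, h1, h2, h3, h4⟩ : ∃ N : ℝ, N ^ 12 * z ≤ K ∧ a ≤ N ∧ b ≤ N ∧ c ≤ N ∧ d ≤ N := by
    rcases le_total a b with h | h
    · rcases le_total c d with h' | h'
      · rcases le_total b d with h'' | h''
        · exact ⟨d, hd, h.trans h'', h'', h', le_rfl⟩
        · exact ⟨b, hb, h, le_rfl, h'.trans h'', h''⟩
      · rcases le_total b c with h'' | h''
        · exact ⟨c, hc, h.trans h'', h'', le_rfl, h'⟩
        · exact ⟨b, hb, h, le_rfl, h'', h'.trans h''⟩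
    · rcases le_total c d with h' | h'
      · rcases le_total a d with h'' | h''
        · exact ⟨d, hd, h'', h.trans h'', h', le_rfl⟩
        · exact ⟨a, ha, le_rfl, h, h'.trans h'', h''⟩
      · rcases le_total a c with h'' | h''
        · exact ⟨c, hc, h'', h.trans h'', le_rfl, h'⟩
        · exact ⟨a, ha, le_rfl, h, h'', h'.trans h''⟩
  have h5 : (a + b + c + d) / 2 ≤ 2 * N := by linarith
  calc ((a + b + c + d) / 2) ^ 12 * z ≤ (2 * N) ^ 12 * z := by
        apply mul_le_mul_of_nonneg_right _ hz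
        exact pow_le_pow_left₀ (by positivity) h5 12
    _ = 2 ^ 12 * (N ^ 12 * z) := by ring
    _ ≤ _ := by linarith

/-- bilinear sums of quadratic symbols -/
theorem t_BIL : ∃ C : ℝ, 1 ≤ C ∧ ∀ (P Q : Finset ℕ) (A B z : ℕ) (c d : ℕ → ℂ),
    (∀ p ∈ P, p.Prime ∧ p ≠ 2 ∧ p ≤ A) → (∀ q ∈ Q, q.Prime ∧ q ≠ 2 ∧ q ≤ B) →
    Disjoint P Q → 1 ≤ z → z ≤ A → z ≤ B → (∀ p, ‖c p‖ ≤ 1) → (∀ q, ‖d q‖ ≤ 1) →
    ‖∑ p ∈ P, ∑ q ∈ Q, c p * d q * sg (nr p q)‖ ^ 12 * z ≤ C * ((A : ℝ) * B) ^ 12 := by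
  refine ⟨2 ^ 12 * (3 * 6 ^ 6), by norm_num, ?_⟩
  intro P Q A B z c d hP hQ hdis hz hzA hzB hc hd
  have hne : ∀ p ∈ P, ∀ q ∈ Q, p ≠ q := fun p hp q hq he =>
    (Finset.disjoint_left.1 hdis) hp (he ▸ hq)
  have hzr : (1 : ℝ) ≤ z := by exact_mod_cast hz
  rcases le_total B A with hBA | hAB
  · have h0 : ∀ c d : ℕ → ℂ, (∀ p, ‖c p‖ ≤ 1) → (∀ q, ‖d q‖ ≤ 1) →
        ‖∑ q ∈ Q, ∑ p ∈ P, d q * c p * xi q p‖ ^ 12 * z ≤ 3 * 6 ^ 6 * ((A : ℝ) * B) ^ 12 := by
      intro c d hc hd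
      have h1 := Pool.Agent.Y710.CQ.bil (hz.trans hzB) hBA hQ hP d c hd hc
      have h2 : (z : ℝ) ≤ B := by exact_mod_cast hzB
      calc ‖∑ q ∈ Q, ∑ p ∈ P, d q * c p * xi q p‖ ^ 12 * z ≤
          (3 * 6 ^ 6 * ((B : ℝ) ^ 11 * (A : ℝ) ^ 12)) * B := by
            apply mul_le_mul h1 h2 (by positivity) (by positivity)
        _ = 3 * 6 ^ 6 * ((A : ℝ) * B) ^ 12 := by ring
    have hcc : ∀ p, ‖c p * ch p‖ ≤ 1 := fun p => by
      rw [norm_mul]
      exact mul_le_one₀ (hc p) (norm_nonneg _) (ch_norm p)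
    have hdc : ∀ p, ‖d p * ch p‖ ≤ 1 := fun p => by
      rw [norm_mul]
      exact mul_le_one₀ (hd p) (norm_nonneg _) (ch_norm p)
    have e1 : ∑ p ∈ P, ∑ q ∈ Q, c p * d q * sg (nr p q) =
        (∑ q ∈ Q, ∑ p ∈ P, d q * c p * xi q p + ∑ q ∈ Q, ∑ p ∈ P, d q * (c p * ch p) * xi q p +
        ∑ q ∈ Q, ∑ p ∈ P, (d q * ch q) * c p * xi q p -
        ∑ q ∈ Q, ∑ p ∈ P, (d q * ch q) * (c p * ch p) * xi q p) / 2 := by
      rw [sum_comm]
      simp only [← sum_add_distrib, ← sum_sub_distrib, Finset.sum_div]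
      refine sum_congr rfl fun q hq => sum_congr rfl fun p hp => ?_
      obtain ⟨p1, p2, -⟩ := hP p hp
      obtain ⟨q1, q2, -⟩ := hQ q hq
      rw [nr_rec p1 p2 q1 q2 (hne p hp q hq), sg_add, sg_vm, sg_xi q1 p1 (hne p hp q hq).symm]
      ring
    rw [e1]
    have h1 := h0 c d hc hd
    have h2 := h0 (fun p => c p * ch p) d hcc hd
    have h3 := h0 c (fun p => d p * ch p) hc hdc
    have h4 := h0 (fun p => c p * ch p) (fun p => d p * ch p) hcc hdc
    have h5 := four_max (norm_nonneg _) (norm_nonneg _) (norm_nonneg _) (norm_nonneg _) h1 h2 h3 h4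
      (by linarith)
    rw [mul_assoc]
    refine le_trans ?_ h5
    apply mul_le_mul_of_nonneg_right _ (by linarith)
    apply pow_le_pow_left₀ (norm_nonneg _)
    rw [norm_div]
    have e2 : ‖(2 : ℂ)‖ = 2 := by norm_num
    rw [e2]
    apply div_le_div_of_nonneg_right _ (by norm_num)
    refine (norm_sub_le _ _).trans (add_le_add ?_ le_rfl)
    refine (norm_add_le _ _).trans (add_le_add ?_ le_rfl)
    exact norm_add_le _ _
  · have e1 : ∑ p ∈ P, ∑ q ∈ Q, c p * d q * sg (nr p q) =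
        ∑ p ∈ P, ∑ q ∈ Q, c p * d q * xi p q := by
      refine sum_congr rfl fun p hp => sum_congr rfl fun q hq => ?_
      rw [sg_xi (hP p hp).1 (hQ q hq).1 (hne p hp q hq)]
    rw [e1]
    have h1 := Pool.Agent.Y710.CQ.bil (hz.trans hzA) hAB hP hQ c d hc hd
    have h2 : (z : ℝ) ≤ A := by exact_mod_cast hzA
    calc ‖∑ p ∈ P, ∑ q ∈ Q, c p * d q * xi p q‖ ^ 12 * z ≤
        (3 * 6 ^ 6 * ((A : ℝ) ^ 11 * (B : ℝ) ^ 12)) * A := by
          apply mul_le_mul h1 h2 (by positivity) (by positivity)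
      _ = 3 * 6 ^ 6 * ((A : ℝ) * B) ^ 12 := by ring
      _ ≤ _ := by
        have : (0 : ℝ) ≤ ((A : ℝ) * B) ^ 12 := by positivity
        nlinarith

end Q44.BM
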