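import Pool.Agent.H68.L.R_seed8.Y703.CQ.Key
import Pool.Agent.H68.L.R_pool_sql_team_seeded_3997aac3.Q44.BM.Rec
import Pool.Agent.H68.L.R_seed8.Y657.CQ.BOX

/-! The joint sum over the boxes (after `Pool.Agent.Q283.GM.KEY`). -/

set_option autoImplicit false

open scoped Classical

namespace Q44.BM

open Finset
open Pool.Agent.Y703.CX (sm la jj XX)
open Pool.Agent.Y703.CQ (nr sg prs HB)
open Pool.Agent.Y703.CQ.K302 (le_XX sm_la_card sm_la_prod root12 prs_card card_sub TT mem_TT harm_TT)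

/-- the class of a large prime -/
noncomputable def ph (Φ : Fam) (H p : ℕ) : ℕ × ℕ := (jj H p, if Φ.A p then 1 else 0)

theorem ph_one {Φ : Fam} {H p : ℕ} : (ph Φ H p).2 = 1 ↔ Φ.A p := by
  unfold ph
  by_cases h : Φ.A p
  · simp [h]
  · simp [h]

/-- the key of a set -/
noncomputable def ky (Φ : Fam) (z H : ℕ) (S : Finset ℕ) : Finset ℕ × Finset (ℕ × ℕ) :=
  (sm z S, (la z S).image (ph Φ H))

/-- the keys which occur -/
structure KP (Φ : Fam) (X z H k : ℕ) (S₀ : Finset ℕ) (J : Finset (ℕ × ℕ)) : Prop where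
  cl : ∀ q ∈ S₀, Φ.P q
  le : ∀ q ∈ S₀, q ≤ z
  inj : Set.InjOn Prod.fst (J : Set (ℕ × ℕ))
  card : S₀.card + J.card ≤ k
  prod : (∏ p ∈ S₀, p) * ∏ e ∈ J, XX H e.1 ≤ X

theorem rr_iff {Φ : Fam} {X z H k : ℕ} (hH : 1 ≤ H) {S : Finset ℕ}
    (hS : ∀ q ∈ S, Φ.P q)
    (hi : Set.InjOn (ph Φ H) (la z S : Set ℕ)) :
    S ∈ RR Φ X z H k ↔ KP Φ X z H k (ky Φ z H S).1 (ky Φ z H S).2 := by
  set J := (la z S).image (ph Φ H) with hJ
  have hky : ky Φ z H S = (sm z S, J) := rfl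
  rw [hky]
  have f2 : J.card = (la z S).card := Finset.card_image_of_injOn hi
  have f8 : ∏ e ∈ J, XX H e.1 = ∏ p ∈ la z S, XX H (jj H p) := by
    rw [hJ, Finset.prod_image hi]
    rfl
  have f9 : Set.InjOn (jj H) (la z S : Set ℕ) ↔ Set.InjOn Prod.fst (J : Set (ℕ × ℕ)) := by
    constructor
    · intro h a ha b hb hab
      rw [Finset.mem_coe, hJ, Finset.mem_image] at ha hb
      obtain ⟨p, hp, rfl⟩ := ha
      obtain ⟨q, hq, rfl⟩ := hb
      rw [h (Finset.mem_coe.2 hp) (Finset.mem_coe.2 hq) hab]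
    · intro h p hp q hq hpq
      exact hi hp hq (h (Finset.mem_coe.2 (Finset.mem_image_of_mem _ (Finset.mem_coe.1 hp)))
        (Finset.mem_coe.2 (Finset.mem_image_of_mem _ (Finset.mem_coe.1 hq))) hpq)
  have hsm : sm z S ⊆ S := Finset.filter_subset _ _
  have hla : la z S ⊆ S := Finset.filter_subset _ _
  constructor
  · intro h
    unfold RR at h
    rw [Finset.mem_filter] at h
    obtain ⟨h1, h2, h3, h4⟩ := h
    unfold SS at h1
    rw [Finset.mem_filter] at h1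
    obtain ⟨-, h6, h10⟩ := h1
    refine ⟨fun q hq => h6 q (hsm hq), fun q hq => (Finset.mem_filter.1 hq).2,
      f9.1 h2, ?_, ?_⟩
    · rw [f2, sm_la_card]
      exact h3
    · rw [f8]
      exact h4
  · rintro ⟨k1, k2, k7, k8, k9⟩
    have hprod : ∏ p ∈ S, p ≤ X := by
      rw [← sm_la_prod z S]
      refine le_trans (Nat.mul_le_mul_left _ ?_) k9
      rw [f8]
      refine Finset.prod_le_prod' fun p hp => le_XX hH (hS p (hla hp)).prime.one_le
    unfold RR SS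
    rw [Finset.mem_filter, Finset.mem_filter, Finset.mem_powerset]
    refine ⟨⟨?_, hS, hprod⟩, f9.2 k7, ?_, ?_⟩
    · intro q hq
      rw [Finset.mem_range]
      have h1 : q ∣ ∏ p ∈ S, p := Finset.dvd_prod_of_mem _ hq
      have h2 : 0 < ∏ p ∈ S, p := Finset.prod_pos fun p hp => (hS p hp).prime.pos
      have := Nat.le_of_dvd h2 h1
      omega
    · rw [← sm_la_card z S, ← f2]
      exact k8
    · rw [← f8]
      exact k9

/-- the primes of a block -/
noncomputable def CC (Φ : Fam) (z H : ℕ) (e : ℕ × ℕ) : Finset ℕ :=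
  (Icc 1 (XX H e.1)).filter fun p => Φ.P p ∧ z < p ∧ ph Φ H p = e

theorem mem_CC {Φ : Fam} {z H : ℕ} (hH : 1 ≤ H) {e : ℕ × ℕ} {p : ℕ} :
    p ∈ CC Φ z H e ↔ Φ.P p ∧ z < p ∧ ph Φ H p = e := by
  unfold CC
  rw [Finset.mem_filter, Finset.mem_Icc]
  constructor
  · exact fun h => h.2
  · intro h
    refine ⟨⟨h.1.prime.one_le, ?_⟩, h⟩
    have := le_XX hH h.1.prime.one_le
    have h2 : jj H p = e.1 := congrArg Prod.fst h.2.2
    rw [h2] at this
    exact this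

section fill
variable {Φ : Fam} {z H : ℕ} {S₀ : Finset ℕ} {J : Finset (ℕ × ℕ)} {p : J → ℕ}

theorem sm_fill (hH : 1 ≤ H) (h₀ : ∀ q ∈ S₀, q ≤ z) (hp : ∀ i : J, p i ∈ CC Φ z H i) :
    sm z (S₀ ∪ univ.image p) = S₀ := by
  ext q
  unfold sm
  rw [Finset.mem_filter, Finset.mem_union, Finset.mem_image]
  constructor
  · rintro ⟨h | ⟨i, -, rfl⟩, h2⟩
    · exact h
    · have := ((mem_CC hH).1 (hp i)).2.1
      omega
  · exact fun h => ⟨Or.inl h, h₀ q h⟩

theorem la_fill (hH : 1 ≤ H) (h₀ : ∀ q ∈ S₀, q ≤ z) (hp : ∀ i : J, p i ∈ CC Φ z H i) :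
    la z (S₀ ∪ univ.image p) = univ.image p := by
  ext q
  unfold la
  rw [Finset.mem_filter, Finset.mem_union, Finset.mem_image]
  constructor
  · rintro ⟨h | h, h2⟩
    · exact absurd (h₀ q h) h2
    · exact h
  · rintro ⟨i, -, rfl⟩
    have := ((mem_CC hH).1 (hp i)).2.1
    exact ⟨Or.inr ⟨i, Finset.mem_univ _, rfl⟩, by omega⟩

theorem ph_fill (hH : 1 ≤ H) (hp : ∀ i : J, p i ∈ CC Φ z H i) (i : J) : ph Φ H (p i) = i :=
  ((mem_CC hH).1 (hp i)).2.2

theorem im_fill (hH : 1 ≤ H) (hp : ∀ i : J, p i ∈ CC Φ z H i) :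
    (univ.image p).image (ph Φ H) = J := by
  ext k
  rw [Finset.mem_image]
  constructor
  · rintro ⟨q, hq, rfl⟩
    rw [Finset.mem_image] at hq
    obtain ⟨i, -, rfl⟩ := hq
    rw [ph_fill hH hp]
    exact i.2
  · intro hk
    exact ⟨p ⟨k, hk⟩, Finset.mem_image_of_mem _ (Finset.mem_univ _), ph_fill hH hp ⟨k, hk⟩⟩

theorem ky_fill (hH : 1 ≤ H) (h₀ : ∀ q ∈ S₀, q ≤ z) (hp : ∀ i : J, p i ∈ CC Φ z H i) :
    ky Φ z H (S₀ ∪ univ.image p) = (S₀, J) := by
  unfold ky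
  rw [sm_fill hH h₀ hp, la_fill hH h₀ hp, im_fill hH hp]

theorem inj_fill (hH : 1 ≤ H) (h₀ : ∀ q ∈ S₀, q ≤ z) (hp : ∀ i : J, p i ∈ CC Φ z H i) :
    Set.InjOn (ph Φ H) (la z (S₀ ∪ univ.image p) : Set ℕ) := by
  rw [la_fill hH h₀ hp]
  intro a ha b hb hab
  rw [Finset.mem_coe, Finset.mem_image] at ha hb
  obtain ⟨i, -, rfl⟩ := ha
  obtain ⟨j, -, rfl⟩ := hb
  rw [ph_fill hH hp, ph_fill hH hp] at hab
  rw [Subtype.ext hab]

end fill

theorem rr_facts {Φ : Fam} {X z H k : ℕ} {S : Finset ℕ} (hS : S ∈ RR Φ X z H k) :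
    (∀ q ∈ S, Φ.P q) ∧ Set.InjOn (jj H) (la z S : Set ℕ) ∧ ∏ p ∈ S, p ≤ X := by
  unfold RR SS at hS
  rw [Finset.mem_filter, Finset.mem_filter] at hS
  exact ⟨hS.1.2.1, hS.2.1, hS.1.2.2⟩

theorem inj_ph {Φ : Fam} {H : ℕ} {A : Set ℕ} (h : Set.InjOn (jj H) A) : Set.InjOn (ph Φ H) A :=
  fun _ ha _ hb hab => h ha hb (congrArg Prod.fst hab)

theorem key_bij {Φ : Fam} {X z H k : ℕ} (hH : 1 ≤ H) {S₀ : Finset ℕ}
    {J : Finset (ℕ × ℕ)}
    (hkey : KP Φ X z H k S₀ J) (P : Finset ℕ → Prop) [DecidablePred P] [DecidableEq J] :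
    ((Fintype.piFinset fun i : J => CC Φ z H i).filter fun p => P (S₀ ∪ univ.image p)).card =
      ((RR Φ X z H k).filter fun S => ky Φ z H S = (S₀, J) ∧ P S).card := by
  have h₀ := hkey.le
  apply Finset.card_bij (fun (p : J → ℕ) _ => S₀ ∪ univ.image p)
  · intro p hp
    rw [Finset.mem_filter, Fintype.mem_piFinset] at hp
    obtain ⟨hp, hP⟩ := hp
    have hk := ky_fill hH h₀ hp
    rw [Finset.mem_filter]
    refine ⟨?_, hk, hP⟩
    rw [rr_iff hH _ (inj_fill hH h₀ hp), hk]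
    · exact hkey
    · intro q hq
      rw [Finset.mem_union, Finset.mem_image] at hq
      rcases hq with hq | ⟨i, -, rfl⟩
      · exact hkey.cl q hq
      · exact ((mem_CC hH).1 (hp i)).1
  · intro p hp p' hp' h
    rw [Finset.mem_filter, Fintype.mem_piFinset] at hp hp'
    have h1 := la_fill hH h₀ hp.1
    rw [h, la_fill hH h₀ hp'.1] at h1
    funext i
    have h2 : p i ∈ univ.image p' := by
      rw [h1]
      exact Finset.mem_image_of_mem _ (Finset.mem_univ _)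
    rw [Finset.mem_image] at h2
    obtain ⟨j, -, hj⟩ := h2
    have h3 := ph_fill hH hp.1 i
    have h4 := ph_fill hH hp'.1 j
    rw [hj, h3] at h4
    rw [← hj, Subtype.ext h4]
  · intro S hS
    rw [Finset.mem_filter] at hS
    obtain ⟨hSR, hSk, hSP⟩ := hS
    obtain ⟨hSO, hSI, -⟩ := rr_facts hSR
    have hk1 : sm z S = S₀ := congrArg Prod.fst hSk
    have hk2 : (la z S).image (ph Φ H) = J := congrArg Prod.snd hSk
    have hex : ∀ i : J, ∃ q ∈ la z S, ph Φ H q = i := by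
      rintro ⟨i, hi⟩
      rw [← hk2, Finset.mem_image] at hi
      exact hi
    choose p hp1 hp2 using hex
    have him : univ.image p = la z S := by
      ext q
      rw [Finset.mem_image]
      constructor
      · rintro ⟨i, -, rfl⟩
        exact hp1 i
      · intro hq
        have hjq : ph Φ H q ∈ J := by
          rw [← hk2]
          exact Finset.mem_image_of_mem _ hq
        exact ⟨⟨ph Φ H q, hjq⟩, Finset.mem_univ _, inj_ph hSI (Finset.mem_coe.2 (hp1 _))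
          (Finset.mem_coe.2 hq) (hp2 ⟨ph Φ H q, hjq⟩)⟩
    have hSe : S₀ ∪ univ.image p = S := by
      rw [him, ← hk1]
      unfold sm la
      exact Finset.filter_union_filter_not_eq _ _
    refine ⟨p, ?_, hSe⟩
    rw [Finset.mem_filter, Fintype.mem_piFinset, hSe]
    refine ⟨fun i => (mem_CC hH).2 ⟨hSO _ (Finset.mem_filter.1 (hp1 i)).1,
      not_le.1 (Finset.mem_filter.1 (hp1 i)).2, hp2 i⟩, hSP⟩

theorem CC_facts {Φ : Fam} {z H : ℕ} (hH : 1 ≤ H) {e : ℕ × ℕ} {p : ℕ}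
    (hp : p ∈ CC Φ z H e) :
    Φ.P p ∧ z < p ∧ p ≤ XX H e.1 ∧ (e.2 = 1 ↔ Φ.A p) := by
  obtain ⟨h1, h2, h3⟩ := (mem_CC hH).1 hp
  refine ⟨h1, h2, ?_, ?_⟩
  · unfold CC at hp
    exact (Finset.mem_Icc.1 (Finset.mem_filter.1 hp).1).2
  · rw [← h3]
    exact ph_one

theorem CC_disj {Φ : Fam} {z H : ℕ} (hH : 1 ≤ H) {J : Finset (ℕ × ℕ)} (i l : J)
    (hil : i ≠ l) : Disjoint (CC Φ z H i) (CC Φ z H l) := by
  rw [Finset.disjoint_left]
  intro p hp hp'
  have h5 := ((mem_CC hH).1 hp).2.2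
  have h6 := ((mem_CC hH).1 hp').2.2
  exact hil (Subtype.ext (h5.symm.trans h6))

theorem hb_box {Φ : Fam} {C₁ : ℝ}
    (h1 : ∀ (P Q : Finset ℕ) (A B z : ℕ) (c d : ℕ → ℂ),
      (∀ p ∈ P, p.Prime ∧ p ≠ 2 ∧ p ≤ A) → (∀ q ∈ Q, q.Prime ∧ q ≠ 2 ∧ q ≤ B) →
      Disjoint P Q → 1 ≤ z → z ≤ A → z ≤ B →
      (∀ p, ‖c p‖ ≤ 1) → (∀ q, ‖d q‖ ≤ 1) →
      ‖∑ p ∈ P, ∑ q ∈ Q, c p * d q * sg (nr p q)‖ ^ 12 * z ≤
        C₁ * ((A : ℝ) * B) ^ 12)
    {z H : ℕ} (hH : 1 ≤ H) (hz : 1 ≤ z) {κ : ℝ} (hκ : 0 ≤ κ) (hκ1 : C₁ ≤ κ ^ 12 * z)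
    {J : Finset (ℕ × ℕ)} :
    HB (univ.filter fun e : J => e.1.2 = 1) (fun i : J => CC Φ z H i)
      (fun i => XX H i.1.1) κ := by
  intro i l hil hi c d hc hd
  show ‖∑ x ∈ CC Φ z H i, ∑ y ∈ CC Φ z H l, c x * d y * sg (nr x y)‖ ≤
    κ * ((XX H i.1.1 : ℝ) * (XX H l.1.1 : ℝ))
  have hz0 : (0 : ℝ) < z := by exact_mod_cast hz
  have hk0 : (0 : ℝ) ≤ κ * ((XX H i.1.1 : ℝ) * (XX H l.1.1 : ℝ)) := by positivity
  rcases (CC Φ z H i).eq_empty_or_nonempty with he | ⟨p₀, hp₀⟩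
  · rw [he, Finset.sum_empty, norm_zero]
    exact hk0
  rcases (CC Φ z H l).eq_empty_or_nonempty with he | ⟨q₀, hq₀⟩
  · rw [he]
    simp only [Finset.sum_empty, Finset.sum_const_zero, norm_zero]
    exact hk0
  have hzi : z ≤ XX H i.1.1 := by
    obtain ⟨-, h2, h3, -⟩ := CC_facts hH hp₀
    omega
  have hzl : z ≤ XX H l.1.1 := by
    obtain ⟨-, h2, h3, -⟩ := CC_facts hH hq₀
    omega
  have hi1 : i.1.2 = 1 := (Finset.mem_filter.1 hi).2
  have h3 := h1 (CC Φ z H i) (CC Φ z H l) (XX H i.1.1) (XX H l.1.1) z c d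
    (fun p hp => by
      obtain ⟨h3, -, h4, h5⟩ := CC_facts hH hp
      exact ⟨h3.prime, Fam.ne_two h3, h4⟩)
    (fun p hp => by
      obtain ⟨h3, -, h4, h5⟩ := CC_facts hH hp
      exact ⟨h3.prime, Fam.ne_two h3, h4⟩)
    (CC_disj hH i l hil) hz hzi hzl hc hd
  exact root12 (norm_nonneg _) hκ (Nat.cast_nonneg _) (Nat.cast_nonneg _) hz0 h3 hκ1

/-- the statement for the boxes -/
def BX (Φ : Fam) {I : Type} (cl : I → ℕ → Prop) (G1 Gd : Finset ℕ → Prop) (c ε : ℝ) (K R : ℕ) :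
    Prop := ∀ (ι : Type) [Fintype ι] [LinearOrder ι] (J1 : Finset ι) (C : ι → Finset ℕ) (X : ι → ℕ)
  (κ : ℝ) (S₀ : Finset ℕ), 0 ≤ κ →
  (∀ i, (C i).card ≤ X i) → HB J1 C X κ → (∀ u ∈ S₀, Φ.P u) →
  (∀ i, ∀ p ∈ C i, Φ.P p ∧ p ∉ S₀ ∧ (i ∈ J1 ↔ Φ.A p)) →
  (∀ i l, i ≠ l → Disjoint (C i) (C l)) →
  |(((Fintype.piFinset C).filter fun p => (NdC Φ cl R S₀ (univ.image p) ∧
      G1 (S₀ ∪ univ.image p)) ∧ Gd (S₀ ∪ univ.image p)).card : ℝ) -
      c * (((Fintype.piFinset C).filter fun p => NdC Φ cl R S₀ (univ.image p) ∧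
        G1 (S₀ ∪ univ.image p)).card : ℝ)| ≤
    ε * (((Fintype.piFinset C).filter fun p => NdC Φ cl R S₀ (univ.image p)).card : ℝ) +
    (K : ℝ) ^ (Fintype.card ι) *
      (2 ^ (2 * S₀.card * Fintype.card ι + (prs J1).card) * (κ * ∏ j, (X j : ℝ)))

theorem box_dec {Φ : Fam} {I : Type} {cl : I → ℕ → Prop} {G1 Gd : Finset ℕ → Prop} {c ε : ℝ}
    {K R : ℕ} (hBOX : BX Φ cl G1 Gd c ε K R) (ι : Type) [Fintype ι] [inst : DecidableEq ι]
    (lo : LinearOrder ι) (J1 : Finset ι) (C : ι → Finset ℕ) (X : ι → ℕ) (κ : ℝ)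
    (S₀ : Finset ℕ)
    (h1 : 0 ≤ κ) (h2 : ∀ i, (C i).card ≤ X i) (h3 : HB J1 C X κ)
    (h4 : ∀ u ∈ S₀, Φ.P u)
    (h5 : ∀ i, ∀ p ∈ C i, Φ.P p ∧ p ∉ S₀ ∧ (i ∈ J1 ↔ Φ.A p))
    (h6 : ∀ i l, i ≠ l → Disjoint (C i) (C l)) :
    |(((Fintype.piFinset C).filter fun p => (NdC Φ cl R S₀ (univ.image p) ∧
      G1 (S₀ ∪ univ.image p)) ∧ Gd (S₀ ∪ univ.image p)).card : ℝ) -
      c * (((Fintype.piFinset C).filter fun p => NdC Φ cl R S₀ (univ.image p) ∧
        G1 (S₀ ∪ univ.image p)).card : ℝ)| ≤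
    ε * (((Fintype.piFinset C).filter fun p => NdC Φ cl R S₀ (univ.image p)).card : ℝ) +
    (K : ℝ) ^ (Fintype.card ι) *
      (2 ^ (2 * S₀.card * Fintype.card ι + (prs J1).card) * (κ * ∏ j, (X j : ℝ))) := by
  have h := hBOX ι J1 C X κ S₀ h1 h2 h3 h4 h5 h6
  have e : inst = fun a b => lo.toDecidableEq a b := Subsingleton.elim _ _
  subst e
  exact h

theorem per_key {Φ : Fam} {I : Type} {cl : I → ℕ → Prop} {G1 Gd : Finset ℕ → Prop} {c ε : ℝ}
    {K R : ℕ} (hε : 0 < ε) (hBOX : BX Φ cl G1 Gd c ε K R)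
    {X z H k : ℕ} (hH : 1 ≤ H) {κ : ℝ} (hκ : 0 ≤ κ) (g5 : K ≤ k)
    {S₀ : Finset ℕ} {J : Finset (ℕ × ℕ)} (hk : KP Φ X z H k S₀ J)
    (hHB : HB (univ.filter fun e : J => e.1.2 = 1) (fun i : J => CC Φ z H i)
      (fun i => XX H i.1.1) κ) :
    |(((RR Φ X z H k).filter fun S => ky Φ z H S = (S₀, J) ∧
        ((NdC Φ cl R (sm z S) (la z S) ∧ G1 S) ∧ Gd S)).card : ℝ) -
      c * (((RR Φ X z H k).filter fun S => ky Φ z H S = (S₀, J) ∧
        (NdC Φ cl R (sm z S) (la z S) ∧ G1 S)).card : ℝ)| ≤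
    ε * (((RR Φ X z H k).filter fun S => ky Φ z H S = (S₀, J)).card : ℝ) +
      (3 ^ (6 * k ^ 2) * κ) * (X / ((∏ p ∈ S₀, p : ℕ) : ℝ)) := by
  set J1 : Finset J := univ.filter fun e : J => e.1.2 = 1 with hJ1
  have hinj : Function.Injective (fun i : J => i.1.1) := by
    intro a b hab
    exact Subtype.ext (hk.inj (Finset.mem_coe.2 a.2) (Finset.mem_coe.2 b.2) hab)
  let lo : LinearOrder J := LinearOrder.lift' (fun i : J => i.1.1) hinj
  have hbox := box_dec hBOX J lo J1 (fun i => CC Φ z H i) (fun i => XX H i.1.1) κ S₀ hκ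
    (fun i => by
      refine (Finset.card_filter_le _ _).trans ?_
      rw [Nat.card_Icc]
      omega)
    hHB hk.cl
    (fun i p hp => by
      obtain ⟨h3, h3', h4, h5⟩ := CC_facts hH hp
      refine ⟨h3, fun h => ?_, ?_⟩
      · have := hk.le p h
        omega
      · rw [hJ1, Finset.mem_filter, ← h5]
        simp)
    (fun i l hil => CC_disj hH i l hil)
  have e1 : ((Fintype.piFinset fun i : J => CC Φ z H i).filter fun p =>
      (NdC Φ cl R S₀ (univ.image p) ∧ G1 (S₀ ∪ univ.image p)) ∧ Gd (S₀ ∪ univ.image p)).card =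
      ((RR Φ X z H k).filter fun S => ky Φ z H S = (S₀, J) ∧
        ((NdC Φ cl R (sm z S) (la z S) ∧ G1 S) ∧ Gd S)).card := by
    rw [← key_bij hH hk (fun S => (NdC Φ cl R (sm z S) (la z S) ∧ G1 S) ∧ Gd S)]
    congr 1
    refine Finset.filter_congr fun p hp => ?_
    rw [Fintype.mem_piFinset] at hp
    rw [sm_fill hH hk.le hp, la_fill hH hk.le hp]
  have e2 : ((Fintype.piFinset fun i : J => CC Φ z H i).filter fun p =>
      NdC Φ cl R S₀ (univ.image p) ∧ G1 (S₀ ∪ univ.image p)).card =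
      ((RR Φ X z H k).filter fun S => ky Φ z H S = (S₀, J) ∧
        (NdC Φ cl R (sm z S) (la z S) ∧ G1 S)).card := by
    rw [← key_bij hH hk (fun S => NdC Φ cl R (sm z S) (la z S) ∧ G1 S)]
    congr 1
    refine Finset.filter_congr fun p hp => ?_
    rw [Fintype.mem_piFinset] at hp
    rw [sm_fill hH hk.le hp, la_fill hH hk.le hp]
  have e3 : ((Fintype.piFinset fun i : J => CC Φ z H i).filter fun p =>
      NdC Φ cl R S₀ (univ.image p)).card =
      ((RR Φ X z H k).filter fun S => ky Φ z H S = (S₀, J) ∧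
        NdC Φ cl R (sm z S) (la z S)).card := by
    rw [← key_bij hH hk (fun S => NdC Φ cl R (sm z S) (la z S))]
    congr 1
    refine Finset.filter_congr fun p hp => ?_
    rw [Fintype.mem_piFinset] at hp
    rw [sm_fill hH hk.le hp, la_fill hH hk.le hp]
  rw [e1, e2, e3] at hbox
  refine hbox.trans (add_le_add ?_ ?_)
  · have h4 : (((RR Φ X z H k).filter fun S => ky Φ z H S = (S₀, J) ∧
        NdC Φ cl R (sm z S) (la z S)).card : ℝ) ≤
        (((RR Φ X z H k).filter fun S => ky Φ z H S = (S₀, J)).card : ℝ) := by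
      have : (RR Φ X z H k).filter (fun S => ky Φ z H S = (S₀, J) ∧
          NdC Φ cl R (sm z S) (la z S)) ⊆
          (RR Φ X z H k).filter fun S => ky Φ z H S = (S₀, J) := by
        intro S hS
        rw [Finset.mem_filter] at hS ⊢
        exact ⟨hS.1, hS.2.1⟩
      exact_mod_cast Finset.card_le_card this
    gcongr
  · have hcJ : Fintype.card J = J.card := Fintype.card_coe J
    have hcard := hk.card
    have hJK : J.card ≤ k := by omega
    have hSK : S₀.card ≤ k := by omega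
    obtain ⟨m, hm⟩ : ∃ m : ℕ, m = (@prs J _ lo J1).card := ⟨_, rfl⟩
    have hpr : m ≤ k * k := by
      rw [hm]
      refine (@prs_card J _ lo J1).trans ?_
      rw [hcJ]
      exact Nat.mul_le_mul hJK hJK
    rw [← hm]
    have h5 : (K : ℝ) ^ Fintype.card J *
        (2 : ℝ) ^ (2 * S₀.card * Fintype.card J + m) ≤ 3 ^ (6 * k ^ 2) := by
      have hexp : 2 * S₀.card * Fintype.card J + m ≤ 3 * k ^ 2 := by
        rw [hcJ]
        have h6 : S₀.card * J.card ≤ k * k := Nat.mul_le_mul hSK hJK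
        calc 2 * S₀.card * J.card + m = 2 * (S₀.card * J.card) + m := by ring
          _ ≤ 2 * (k * k) + k * k := by omega
          _ = 3 * k ^ 2 := by ring
      have hF : (K : ℝ) ^ Fintype.card J ≤ 2 ^ (k ^ 2) := by
        have h6 : K ≤ 2 ^ k := g5.trans Nat.lt_two_pow_self.le
        have h7 : K ^ Fintype.card J ≤ (2 ^ k) ^ k := by
          refine (Nat.pow_le_pow_left h6 _).trans ?_
          refine Nat.pow_le_pow_right (by positivity) ?_
          rw [hcJ]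
          exact hJK
        rw [← pow_mul, ← sq] at h7
        exact_mod_cast h7
      calc (K : ℝ) ^ Fintype.card J *
          (2 : ℝ) ^ (2 * S₀.card * Fintype.card J + m) ≤
            2 ^ (k ^ 2) * 2 ^ (3 * k ^ 2) := by
            refine mul_le_mul hF (pow_le_pow_right₀ (by norm_num) hexp) (by positivity)
              (by positivity)
        _ = (2 ^ 4) ^ (k ^ 2) := by
            rw [← pow_add, ← pow_mul]
            congr 1
            ring
        _ ≤ (3 ^ 6) ^ (k ^ 2) := by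
            apply pow_le_pow_left₀ <;> norm_num
        _ = _ := by rw [← pow_mul]
    have hN0 : (0 : ℝ) < ((∏ p ∈ S₀, p : ℕ) : ℝ) := by
      exact_mod_cast Finset.prod_pos fun p hp => (hk.cl p hp).prime.pos
    have hprod : ∏ j : J, (XX H j.1.1 : ℝ) ≤ X / ((∏ p ∈ S₀, p : ℕ) : ℝ) := by
      have h5 : ∏ j : J, (XX H j.1.1 : ℝ) = ((∏ k ∈ J, XX H k.1 : ℕ) : ℝ) := by
        rw [← Finset.prod_coe_sort J (fun k => XX H k.1)]
        push_cast
        rfl
      rw [h5, le_div_iff₀ hN0, mul_comm]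
      exact_mod_cast hk.prod
    have hpn : (0 : ℝ) ≤ ∏ j : J, (XX H j.1.1 : ℝ) := Finset.prod_nonneg fun _ _ => Nat.cast_nonneg _
    calc (K : ℝ) ^ Fintype.card J *
          ((2 : ℝ) ^ (2 * S₀.card * Fintype.card J + m) *
        (κ * ∏ j : J, (XX H j.1.1 : ℝ))) = ((K : ℝ) ^ Fintype.card J *
          (2 : ℝ) ^ (2 * S₀.card * Fintype.card J + m)) *
        (κ * ∏ j : J, (XX H j.1.1 : ℝ)) := by ring
      _ ≤ 3 ^ (6 * k ^ 2) * (κ * (X / ((∏ p ∈ S₀, p : ℕ) : ℝ))) := by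
          refine mul_le_mul h5 (mul_le_mul_of_nonneg_left hprod hκ) (mul_nonneg hκ hpn)
            (by positivity)
      _ = _ := by ring

/-- **KEY.** -/
theorem t_KEY : ∃ C : ℝ, 1 ≤ C ∧ ∀ (Φ : Fam) (I : Type) (cl : I → ℕ → Prop)
    (G1 Gd : Finset ℕ → Prop) (c ε : ℝ) (K R : ℕ), 0 < ε → BX Φ cl G1 Gd c ε K R →
    ∀ (X z H k N : ℕ) (κ : ℝ), K ≤ k →
    1 ≤ X → 1 ≤ H → 1 ≤ z → 0 ≤ κ → C ≤ κ ^ 12 * z → (H : ℝ) * Real.log X < N →
    |(((RR Φ X z H k).filter fun S => (NdC Φ cl R (sm z S) (la z S) ∧ G1 S) ∧ Gd S).card : ℝ) -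
        c * (((RR Φ X z H k).filter fun S => NdC Φ cl R (sm z S) (la z S) ∧
          G1 S).card : ℝ)| ≤
      ε * ((RR Φ X z H k).card : ℝ) +
      (9 * N + 9 : ℝ) ^ k * (3 ^ (6 * k ^ 2) * κ) * (X * (1 + Real.log X)) := by
  obtain ⟨C₁, hC₁, h1⟩ := t_BIL
  refine ⟨C₁, hC₁, ?_⟩
  intro Φ I cl G1 Gd c ε K R hε hBX X z H k N κ g5 hX hH hz hκ hκz hN
  set T := (RR Φ X z H k).image (ky Φ z H) with hT
  set B : ℝ := 3 ^ (6 * k ^ 2) * κ with hB
  have hB0 : 0 ≤ B := by positivity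
  have hfib : ∀ (P : Finset ℕ → Prop) [DecidablePred P],
      (((RR Φ X z H k).filter fun S => P S).card : ℝ) =
      ∑ e ∈ T, (((RR Φ X z H k).filter fun S => ky Φ z H S = e ∧ P S).card : ℝ) := by
    intro P _
    rw [Finset.card_eq_sum_card_fiberwise (f := ky Φ z H) (t := T) (by
      intro S hS
      rw [Finset.mem_coe, Finset.mem_filter] at hS
      exact Finset.mem_coe.2 (Finset.mem_image_of_mem _ hS.1))]
    push_cast
    refine Finset.sum_congr rfl fun e _ => ?_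
    congr 2
    ext S
    simp only [Finset.mem_filter]
    tauto
  have hKP : ∀ e ∈ T, KP Φ X z H k e.1 e.2 := by
    intro e he
    rw [hT, Finset.mem_image] at he
    obtain ⟨S, hS, rfl⟩ := he
    obtain ⟨f1, f2, f3⟩ := rr_facts hS
    exact (rr_iff hH f1 (inj_ph f2)).1 hS
  have hf1 := hfib fun S => (NdC Φ cl R (sm z S) (la z S) ∧ G1 S) ∧ Gd S
  have hf2 := hfib fun S => NdC Φ cl R (sm z S) (la z S) ∧ G1 S
  have hf3 := hfib fun _ => True
  simp only [and_true, Finset.filter_true] at hf3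
  rw [hf1, hf2, hf3, Finset.mul_sum, ← Finset.sum_sub_distrib]
  refine (Finset.abs_sum_le_sum_abs _ _).trans ?_
  have h3 : ∀ e ∈ T, |(((RR Φ X z H k).filter fun S => ky Φ z H S = e ∧
        ((NdC Φ cl R (sm z S) (la z S) ∧ G1 S) ∧ Gd S)).card : ℝ) -
      c * (((RR Φ X z H k).filter fun S => ky Φ z H S = e ∧
        (NdC Φ cl R (sm z S) (la z S) ∧ G1 S)).card : ℝ)| ≤
      ε * (((RR Φ X z H k).filter fun S => ky Φ z H S = e).card : ℝ) +
      B * (X / ((∏ p ∈ e.1, p : ℕ) : ℝ)) := by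
    intro e he
    obtain ⟨S₀, J⟩ := e
    have hk' := hKP _ he
    exact per_key hε hBX hH hκ g5 hk' (hb_box h1 hH hz hκ hκz)
  refine (Finset.sum_le_sum h3).trans ?_
  rw [Finset.sum_add_distrib, ← Finset.mul_sum]
  refine add_le_add le_rfl ?_
  have hsub : T ⊆ (TT X) ×ˢ ((range N ×ˢ range 8).powerset.filter fun J => J.card ≤ k) := by
    intro e he
    have hk' := hKP e he
    rw [hT, Finset.mem_image] at he
    obtain ⟨S, hS, rfl⟩ := he
    obtain ⟨f1, f2, f3⟩ := rr_facts hS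
    rw [Finset.mem_product, Finset.mem_filter, Finset.mem_powerset]
    refine ⟨mem_TT (fun q hq => (hk'.cl q hq).prime) ?_, ?_, ?_⟩
    · refine le_trans ?_ f3
      exact Nat.le_of_dvd (Finset.prod_pos fun p hp => (f1 p hp).prime.pos)
        (Finset.prod_dvd_prod_of_subset _ _ _ (Finset.filter_subset _ _))
    · intro e he
      unfold ky at he
      rw [Finset.mem_image] at he
      obtain ⟨q, hq, rfl⟩ := he
      have hqS := (Finset.mem_filter.1 hq).1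
      have hq0 := (f1 q hqS).prime.pos
      have hqX : q ≤ X := by
        refine le_trans ?_ f3
        exact Nat.le_of_dvd (Finset.prod_pos fun p hp => (f1 p hp).prime.pos)
          (Finset.dvd_prod_of_mem _ hqS)
      unfold ph
      rw [Finset.mem_product, Finset.mem_range, Finset.mem_range]
      refine ⟨?_, ?_⟩
      · have h3 : ((jj H q : ℕ) : ℝ) < N := by
          refine lt_of_le_of_lt (Nat.floor_le (mul_nonneg (Nat.cast_nonneg _)
            (Real.log_nonneg (by exact_mod_cast hq0)))) ?_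
          refine lt_of_le_of_lt ?_ hN
          refine mul_le_mul_of_nonneg_left ?_ (Nat.cast_nonneg _)
          exact Real.log_le_log (by exact_mod_cast hq0) (by exact_mod_cast hqX)
        exact_mod_cast h3
      · show (if Φ.A q then 1 else 0) < 8
        split_ifs <;> norm_num
    · have := hk'.card
      omega
  refine (Finset.sum_le_sum_of_subset_of_nonneg hsub fun _ _ _ => by positivity).trans ?_
  rw [Finset.sum_product]
  simp only [Finset.sum_const, nsmul_eq_mul]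
  rw [← Finset.mul_sum]
  have h4 : ((((range N ×ˢ range 8).powerset.filter fun J => J.card ≤ k).card : ℕ) : ℝ) ≤
      (9 * N + 9 : ℝ) ^ k := by
    have h5 := card_sub (range N ×ˢ range 8) k
    rw [Finset.card_product, Finset.card_range, Finset.card_range] at h5
    calc ((((range N ×ˢ range 8).powerset.filter fun J => J.card ≤ k).card : ℕ) : ℝ) ≤
          (((N * 8 + 1) ^ k : ℕ) : ℝ) := by exact_mod_cast h5
      _ = (N * 8 + 1 : ℝ) ^ k := by push_cast; ring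
      _ ≤ _ := by
        apply pow_le_pow_left₀ (by positivity)
        have : (0 : ℝ) ≤ N := Nat.cast_nonneg _
        linarith
  have h5 : ∑ S ∈ TT X, B * (X / ((∏ p ∈ S, p : ℕ) : ℝ)) ≤ B * (X * (1 + Real.log X)) := by
    have h6 : ∀ S ∈ TT X, B * ((X : ℝ) / ((∏ p ∈ S, p : ℕ) : ℝ)) =
        B * X * (1 / ((∏ p ∈ S, p : ℕ) : ℝ)) := by
      intro S _
      ring
    rw [Finset.sum_congr rfl h6, ← Finset.mul_sum]
    have h7 := mul_le_mul_of_nonneg_left (harm_TT X) (mul_nonneg hB0 (Nat.cast_nonneg X))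
    refine h7.trans (le_of_eq ?_)
    ring
  have h6 : 0 ≤ ∑ S ∈ TT X, B * ((X : ℝ) / ((∏ p ∈ S, p : ℕ) : ℝ)) :=
    Finset.sum_nonneg fun _ _ => by positivity
  rw [mul_assoc]
  gcongr

end Q44.BM
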