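import Pool.Agent.H68.L.R_pool_sql_team_seeded_3997aac3.Q44.BC.LA6
import Pool.Agent.H68.L.R_pool_sql_team_seeded_3997aac3.Q283.J2.Stm

/-!
# The machine for a general class of odd primes: the definitions (after `Pool.Agent.Q283.GM.Stm`)

`A` are the active and `B` the passive primes; the primes `E` are active and used for the nondegeneracy.
-/

set_option autoImplicit false
set_option linter.unusedVariables false

open scoped Classical

namespace Q44.BM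

open Finset
open Pool.Agent.Y703.CX (sm la jj XX eL zz kk S_SIE)
open Pool.Agent.Y703.CQ (nr sg prs HB S_EQ)

/-- the active and the passive primes -/
structure Fam where
  A : ℕ → Prop
  B : ℕ → Prop
  E : ℕ → Prop
  hA : ∀ p, A p → p.Prime ∧ p ≠ 2
  hB : ∀ p, B p → p.Prime ∧ p ≠ 2
  dis : ∀ p, A p → ¬ B p
  hE : ∀ p, E p → A p

/-- the primes of the family -/
def Fam.P (Φ : Fam) (p : ℕ) : Prop := Φ.A p ∨ Φ.B p

theorem Fam.P.prime {Φ : Fam} {p : ℕ} (h : Φ.P p) : p.Prime := by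
  rcases h with h | h
  · exact (Φ.hA p h).1
  · exact (Φ.hB p h).1

theorem Fam.ne_two {Φ : Fam} {p : ℕ} (h : Φ.P p) : p ≠ 2 := by
  rcases h with h | h
  · exact (Φ.hA p h).2
  · exact (Φ.hB p h).2

/-- the sets of primes of the family with product at most `X` -/
noncomputable def SS (Φ : Fam) (X : ℕ) : Finset (Finset ℕ) :=
  (range (X + 1)).powerset.filter fun S => (∀ p ∈ S, Φ.P p) ∧ ∏ p ∈ S, p ≤ X

/-- the labels are not degenerate -/
def Nd (Φ : Fam) (S₀ S₁ : Finset ℕ) : Prop :=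
  ∀ w : ℕ → ZMod 2, (∃ u ∈ S₀, Φ.A u ∧ w u ≠ 0) →
    ∃ p ∈ S₁, Φ.E p ∧ ∑ u ∈ S₀.filter (fun u => Φ.A u), w u * nr p u ≠ 0

/-- the labels are not degenerate and there are many primes in the classes -/
def NdC (Φ : Fam) {I : Type} (cl : I → ℕ → Prop) (R : ℕ) (S₀ S₁ : Finset ℕ) : Prop :=
  Nd Φ S₀ S₁ ∧ ∀ i, 2 * S₀.card + R ≤ (S₁.filter fun p => cl i p).card

/-- the regular sets -/
noncomputable def RR (Φ : Fam) (X z H k : ℕ) : Finset (Finset ℕ) :=
  (SS Φ X).filter fun S => Set.InjOn (jj H) (la z S : Set ℕ) ∧ S.card ≤ k ∧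
    (∏ p ∈ sm z S, p) * ∏ p ∈ la z S, XX H (jj H p) ≤ X

/-- a lower bound of Mertens type for the primes of a class -/
def HM (w : ℕ → Prop) : Prop := ∃ θ C : ℝ, 0 < θ ∧ ∀ y : ℕ, 3 ≤ y →
  θ * Real.log (Real.log y) - C ≤ ∑ p ∈ (range (y + 1)).filter (fun p => p.Prime ∧ w p), (1 : ℝ) / p

/-- the analytic facts on the family: the density `δ` of the primes, the size of the family, the
primes on which a product is a square are few -/
structure Ok (Φ : Fam) (δ : ℝ) : Prop where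
  pos : 0 < δ
  le : δ ≤ 1
  up : ∃ C : ℝ, ∀ y : ℕ, 3 ≤ y →
    ∑ p ∈ (range (y + 1)).filter (fun p => Φ.P p), (1 : ℝ) / p ≤ δ * Real.log (Real.log y) + C
  low : ∃ (c : ℝ) (X₀ : ℕ), 0 < c ∧ ∀ X : ℕ, X₀ ≤ X →
    c * X * (Real.log X) ^ (-1 + δ : ℝ) ≤ ((SS Φ X).card : ℝ)
  sq : ∃ θ C : ℝ, 0 < θ ∧ 0 ≤ C ∧ ∀ (W : Finset ℕ) (y : ℕ), W.Nonempty → (∀ u ∈ W, Φ.A u) → 3 ≤ y →
    ∑ p ∈ (range (y + 1)).filter (fun p => Φ.P p ∧ (Φ.E p → p ∉ W ∧ ∑ u ∈ W, nr p u = 0)),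
      (1 : ℝ) / p ≤ (δ - θ) * Real.log (Real.log y) +
        C * Real.log (Real.log ((∏ u ∈ W, u : ℕ) : ℝ)) + C

end Q44.BM
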